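import Pool.Agent.Work.MP_adbfe6_an.Ext.Moves

/-!
# The strictly saturated version and the main theorem
-/

set_option autoImplicit false
set_option linter.unusedSectionVars false

open MeasureTheory Filter Topology Set
open scoped symmDiff

namespace Pool.Agent.Work.MP_adbfe6_an.Ext

universe u₁ u₂ u₃ u₄

section strict

variable {G : Type u₃} {N : Type u₄} [Group G] [TopologicalSpace G] [IsTopologicalGroup G]
  [LocallyCompactSpace G] [SecondCountableTopology G] [MulAction G N]
  [MetricSpace N] [CompactSpace N] [MeasurableSpace N] [BorelSpace N] [ContinuousSMul G N]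
  {ν : Measure N} [IsFiniteMeasure ν]

theorem strict_version (H : Subgroup G) (hHc : IsClosed (H : Set G)) {B : Set N}
    (hB : MeasurableSet B) (hinv : ∀ g ∈ H, {y : N | g • y ∈ B} =ᵐ[ν] B) :
    ∃ B' : Set N, MeasurableSet B' ∧ B' =ᵐ[ν] B ∧ ∀ g ∈ H, ∀ y : N, g • y ∈ B' ↔ y ∈ B' := by
  let mH : MeasurableSpace H := borel H
  have bH : BorelSpace H := ⟨rfl⟩
  have lH : LocallyCompactSpace H := hHc.isClosedEmbedding_subtypeVal.locallyCompactSpace
  have sH : SecondCountableTopology H :=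
    (IsEmbedding.subtypeVal : IsEmbedding (Subtype.val : H → G)).secondCountableTopology
  let m : Measure H := Measure.haar
  have hW : MeasurableSet {q : N × H | (q.2 : G) • q.1 ∈ B} := by
    have : Continuous (fun q : N × H => (q.2 : G) • q.1) :=
      (continuous_subtype_val.comp continuous_snd).smul continuous_fst
    exact this.measurable hB
  refine ⟨{y : N | ∀ᵐ h : H ∂m, (h : G) • y ∈ B}, ?_, ?_, ?_⟩
  · have h1 := measurable_measure_prodMk_left (ν := m) hW.compl
    exact h1 (measurableSet_singleton 0)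
  · have hmeas : MeasurableSet {q : H × N | ((q.1 : G) • q.2 ∈ B ↔ q.2 ∈ B)} := by
      have h1 : Measurable (fun q : H × N => (q.2, q.1)) := measurable_snd.prodMk measurable_fst
      have h2 := h1 hW
      have h3 : MeasurableSet {q : H × N | q.2 ∈ B} := measurable_snd hB
      have h4 : {q : H × N | ((q.1 : G) • q.2 ∈ B ↔ q.2 ∈ B)} =
          (((fun q : H × N => (q.2, q.1)) ⁻¹' {q : N × H | (q.2 : G) • q.1 ∈ B}) ∆
            {q : H × N | q.2 ∈ B})ᶜ := by
        ext q
        simp only [mem_ofPred_eq, mem_compl_iff, mem_symmDiff, mem_preimage]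
        tauto
      rw [h4]
      exact (h2.symmDiff h3).compl
    have h5 : ∀ᵐ h : H ∂m, ∀ᵐ y : N ∂ν, ((h : G) • y ∈ B ↔ y ∈ B) :=
      Eventually.of_forall fun h => (eventuallyEq_set.mp (hinv h h.2))
    have h6 := (Measure.ae_ae_comm (p := fun (h : H) (y : N) => ((h : G) • y ∈ B ↔ y ∈ B))
      hmeas).mp h5
    rw [eventuallyEq_set]
    filter_upwards [h6] with y hy
    constructor
    · intro hy1
      obtain ⟨h, h7, h8⟩ := (hy.and hy1).exists
      exact h7.mp h8
    · intro hyB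
      filter_upwards [hy] with h h7
      exact h7.mpr hyB
  · intro g hg y
    have key : ∀ (g : H) (z : N), (∀ᵐ h : H ∂m, (h : G) • z ∈ B) →
        ∀ᵐ h : H ∂m, (h : G) • ((g : G) • z) ∈ B := by
      intro g z hz
      have h1 := (quasiMeasurePreserving_mul_right m g).ae hz
      filter_upwards [h1] with h h2
      rw [← mul_smul]
      exact h2
    constructor
    · intro h1
      have h2 := key ⟨g, hg⟩⁻¹ _ h1
      simp only [InvMemClass.coe_inv, inv_smul_smul] at h2
      exact h2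
    · intro h1
      exact key ⟨g, hg⟩ y h1

end strict

section spread

variable {L : Type u₁} {X : Type u₂} {G : Type u₃} {N : Type u₄} [Group L] [TopologicalSpace L]
  [IsTopologicalGroup L] [LocallyCompactSpace L] [PolishSpace L]
  [MeasurableSpace L] [BorelSpace L]
  [MetricSpace X] [CompactSpace X] [MeasurableSpace X] [BorelSpace X] [MulAction L X]
  [ContinuousSMul L X] [Group G] [TopologicalSpace G] [IsTopologicalGroup G]
  [LocallyCompactSpace G] [SecondCountableTopology G]
  [MeasurableSpace G] [BorelSpace G] [MulAction G N]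
  [MetricSpace N] [CompactSpace N] [MeasurableSpace N] [BorelSpace N] [ContinuousSMul G N]
  {m : Measure X} [IsFiniteMeasure m] {ν : Measure N} [IsFiniteMeasure ν] {S : Set (X × N)}

/-- the stabiliser of the slice of `S` over `x0` -/
def stab (hm : ∀ g : G, MeasurePreserving (fun y : N => g • y) ν ν) (S : Set (X × N))
    (x0 : X) : Subgroup G where
  carrier := {g : G | Rel ν S x0 x0 g}
  mul_mem' := fun {_ _} ha hb => rel_mul hm hb ha
  one_mem' := rel_one x0
  inv_mem' := fun {_} ha => rel_inv hm ha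

/-- a set is null in `X` if almost all of the orbit map is outside of it -/
theorem ae_of_orbit [NeZero m] (hL : ∀ g : L, MeasurePreserving (fun x : X => g • x) m m)
    (htr : ∀ x x' : X, ∃ g : L, g • x = x') (x0 : X) {E : Set X} (hE : MeasurableSet E)
    (h : ∀ᵐ g : L ∂Measure.haar, g • x0 ∉ E) : m E = 0 := by
  have h1 : ∀ᵐ x : X ∂m, ∀ᵐ g : L ∂Measure.haar, g • x ∉ E := by
    refine Eventually.of_forall fun x => ?_
    obtain ⟨b, hb⟩ := htr x0 x
    have h4 := (quasiMeasurePreserving_mul_right (Measure.haar : Measure L) b).ae h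
    filter_upwards [h4] with g hg
    rw [← hb, ← mul_smul]
    exact hg
  have hmeas : MeasurableSet {q : X × L | q.2 • q.1 ∉ E} := by
    have : Continuous (fun q : X × L => q.2 • q.1) := continuous_snd.smul continuous_fst
    exact (this.measurable hE).compl
  have h3 := (Measure.ae_ae_comm (p := fun (x : X) (g : L) => g • x ∉ E) hmeas).mp h1
  obtain ⟨g, hg⟩ := h3.exists
  have h5 : m ((fun x : X => g • x) ⁻¹' E) = 0 := measure_eq_zero_iff_ae_notMem.mpr hg
  rwa [(hL g).measure_preimage hE.nullMeasurableSet] at h5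

theorem spread [NeZero m] (hm : ∀ g : G, MeasurePreserving (fun y : N => g • y) ν ν)
    (hL : ∀ g : L, MeasurePreserving (fun x : X => g • x) m m)
    (htr : ∀ x x' : X, ∃ g : L, g • x = x') (hS : MeasurableSet S) {x0 : X}
    {V : ℕ → Set L} {c : ℕ → L → G} (hc : ∀ j, Chart ν S x0 (V j) (c j))
    (hcov : ∀ g : L, ∃ j, g ∈ V j) :
    ∃ S' : Set (X × N), MeasurableSet S' ∧ S' =ᵐ[m.prod ν] S ∧
      ∀ (τ : L) (κ : X → G), Move m ν S τ κ →
        ∀ (x : X) (y : N), (τ • x, κ x • y) ∈ S' ↔ (x, y) ∈ S' := by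
  classical
  have hBm : MeasurableSet {y : N | (x0, y) ∈ S} := measurable_prodMk_left hS
  obtain ⟨B', hB'm, hB'ae, hB'inv⟩ := strict_version (stab hm S x0) (rel_closed hm hS x0 x0) hBm
    (fun g hg => hg)
  -- the main consistency statement
  have hcons : ∀ {τ l : L} {κ : X → G}, Move m ν S τ κ → l • x0 = x0 → ∀ {g : L} {i j : ℕ},
      g ∈ V i → τ * g * l ∈ V j → ∀ y : N,
      (c j (τ * g * l))⁻¹ • κ (g • x0) • y ∈ B' ↔ (c i g)⁻¹ • y ∈ B' := by
    intro τ l κ hτ hl g i j hg hg' y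
    have h1 : (c j (τ * g * l))⁻¹ * κ (g • x0) * c i g ∈ stab hm S x0 :=
      (hc i).conj hm hL htr hS (hc j) hτ hl hg hg'
    have h2 := hB'inv _ h1 ((c i g)⁻¹ • y)
    rw [← h2, mul_smul, mul_smul, smul_inv_smul]
  -- the set on `L × N`
  set S2 : Set (L × N) := {q | ∃ j, q.1 ∈ V j ∧ (c j q.1)⁻¹ • q.2 ∈ B'} with hS2
  have hmem2 : ∀ {g : L} {y : N} {j : ℕ}, g ∈ V j → ((g, y) ∈ S2 ↔ (c j g)⁻¹ • y ∈ B') := by
    intro g y j hg
    constructor
    · rintro ⟨i, hi, hy⟩
      have h1 := hcons (Move.one (L := L) (m := m) (ν := ν) (S := S) (G := G)) (one_smul L x0)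
        (g := g) (i := i) (j := j) hi (by simpa using hg) y
      simp only [one_mul, mul_one, one_smul] at h1
      exact h1.mpr hy
    · intro hy
      exact ⟨j, hg, hy⟩
  have hS2m : MeasurableSet S2 := by
    have h1 : S2 = ⋃ j, ({q : L × N | q.1 ∈ V j} ∩
        {q : L × N | ((V j).piecewise (c j) (fun _ => (1 : G)) q.1)⁻¹ • q.2 ∈ B'}) := by
      ext q
      rw [mem_iUnion]
      constructor
      · rintro ⟨j, hj, hq⟩
        refine ⟨j, hj, ?_⟩
        show ((V j).piecewise (c j) (fun _ => (1 : G)) q.1)⁻¹ • q.2 ∈ B'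
        rw [Set.piecewise_eq_of_mem (V j) (c j) (fun _ => (1 : G)) hj]
        exact hq
      · rintro ⟨j, hj, hq⟩
        refine ⟨j, hj, ?_⟩
        have hq' : ((V j).piecewise (c j) (fun _ => (1 : G)) q.1)⁻¹ • q.2 ∈ B' := hq
        rw [Set.piecewise_eq_of_mem (V j) (c j) (fun _ => (1 : G)) hj] at hq'
        exact hq'
    rw [h1]
    refine MeasurableSet.iUnion fun j => ?_
    refine (measurable_fst (hc j).isOpen.measurableSet).inter ?_
    have h2 : Measurable ((V j).piecewise (c j) (fun _ => (1 : G))) :=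
      (hc j).cont.measurable_piecewise continuousOn_const (hc j).isOpen.measurableSet
    have hsm : Measurable (fun q : G × N => q.1 • q.2) := continuous_smul.measurable
    have h3 : Measurable (fun q : L × N =>
        ((V j).piecewise (c j) (fun _ => (1 : G)) q.1)⁻¹ • q.2) :=
      hsm.comp (((h2.comp measurable_fst).inv).prodMk measurable_snd)
    exact h3 hB'm
  -- descent to `X × N`
  set S' : Set (X × N) := {q | ∀ g : L, g • x0 = q.1 → (g, q.2) ∈ S2} with hS'
  have hdesc : ∀ (g : L) (y : N), (g • x0, y) ∈ S' ↔ (g, y) ∈ S2 := by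
    intro g y
    constructor
    · intro h
      exact h g rfl
    · intro h g' hg'
      obtain ⟨i, hi⟩ := hcov g
      obtain ⟨j, hj⟩ := hcov g'
      have hl : (g⁻¹ * g') • x0 = x0 := by
        rw [mul_smul, hg', inv_smul_smul]
      have e : (1 : L) * g * (g⁻¹ * g') = g' := by group
      have h1 := hcons (Move.one (L := L) (m := m) (ν := ν) (S := S) (G := G)) hl
        (g := g) (i := i) (j := j) hi (by rw [e]; exact hj) y
      rw [e, one_smul] at h1
      rw [hmem2 hj, h1]
      exact (hmem2 hi).mp h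
  have horb : ∀ x : X, ∃ g : L, g • x0 = x := fun x => htr x0 x
  have hS'm : MeasurableSet S' := by
    have hc1 : Continuous (fun q : L × N => (q.1 • x0, q.2)) :=
      (continuous_fst.smul continuous_const).prodMk continuous_snd
    have hmeas : Measurable (fun q : L × N => (q.1 • x0, q.2)) := hc1.measurable
    have hsurj : Function.Surjective (fun q : L × N => (q.1 • x0, q.2)) := by
      rintro ⟨x, y⟩
      obtain ⟨g, hg⟩ := horb x
      exact ⟨(g, y), Prod.ext hg rfl⟩
    rw [← hmeas.measurableSet_preimage_iff_of_surjective hsurj]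
    have : (fun q : L × N => (q.1 • x0, q.2)) ⁻¹' S' = S2 := by
      ext q
      exact hdesc q.1 q.2
    rw [this]
    exact hS2m
  refine ⟨S', hS'm, ?_, ?_⟩
  · -- equality mod null sets
    have hdm : MeasurableSet (S' ∆ S) := hS'm.symmDiff hS
    have hfun := measurable_measure_prodMk_left (ν := ν) hdm
    have hEm : MeasurableSet {x : X | ν (Prod.mk x ⁻¹' (S' ∆ S)) ≠ 0} :=
      (hfun (measurableSet_singleton 0)).compl
    have hE0 : m {x : X | ν (Prod.mk x ⁻¹' (S' ∆ S)) ≠ 0} = 0 := by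
      refine ae_of_orbit hL htr x0 hEm ?_
      have hall : ∀ᵐ g : L ∂Measure.haar, ∀ j, g ∈ V j → Rel ν S x0 (g • x0) (c j g) :=
        ae_all_iff.mpr fun j => (hc j).rel
      filter_upwards [hall] with g hg hgE
      apply hgE
      obtain ⟨j, hj⟩ := hcov g
      have h6 := rel_inv hm (hg j hj)
      have h7 : (fun y : N => (c j g)⁻¹ • y) ⁻¹' B' =ᵐ[ν]
          (fun y : N => (c j g)⁻¹ • y) ⁻¹' {y : N | (x0, y) ∈ S} :=
        (hm _).quasiMeasurePreserving.preimage_ae_eq hB'ae
      have h8 := h7.trans h6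
      have h9 := measure_symmDiff_eq_zero_iff.mpr h8
      have h10 : Prod.mk (g • x0) ⁻¹' (S' ∆ S) =
          ((fun y : N => (c j g)⁻¹ • y) ⁻¹' B') ∆ {y : N | (g • x0, y) ∈ S} := by
        rw [preimage_symmDiff]
        congr 1
        ext y
        rw [mem_preimage, hdesc, hmem2 hj]
        rfl
      rw [h10]
      exact h9
    rw [← measure_symmDiff_eq_zero_iff, Measure.measure_prod_null hdm]
    have : ∀ᵐ x : X ∂m, x ∉ {x : X | ν (Prod.mk x ⁻¹' (S' ∆ S)) ≠ 0} :=
      measure_eq_zero_iff_ae_notMem.mp hE0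
    filter_upwards [this] with x hx
    exact not_not.mp hx
  · intro τ κ hτ x y
    obtain ⟨g, rfl⟩ := horb x
    obtain ⟨i, hi⟩ := hcov g
    obtain ⟨j, hj⟩ := hcov (τ * g)
    have h1 := hcons hτ (one_smul L x0) (g := g) (i := i) (j := j) hi (by simpa using hj) y
    simp only [mul_one] at h1
    rw [← mul_smul, hdesc, hdesc, hmem2 hj, hmem2 hi]
    exact h1

end spread

section main

variable {L : Type u₁} {X : Type u₂} {G : Type u₃} {N : Type u₄} [Group L] [TopologicalSpace L]
  [IsTopologicalGroup L] [LocallyCompactSpace L] [PolishSpace L]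
  [MetricSpace X] [CompactSpace X] [MeasurableSpace X] [BorelSpace X] [MulAction L X]
  [ContinuousSMul L X] [Group G] [TopologicalSpace G] [IsTopologicalGroup G]
  [LocallyCompactSpace G] [MulAction G N]
  [MetricSpace N] [CompactSpace N] [MeasurableSpace N] [BorelSpace N] [ContinuousSMul G N]

theorem skew_ainv (T : X ≃ X) (a : X → G) (p : X × N) :
    skew T a (skew T.symm (ainv T.symm a) p) = p := by
  refine Prod.ext ?_ ?_
  · exact T.apply_symm_apply p.1
  · show a (T.symm p.1) • (a (T.symm p.1))⁻¹ • p.2 = p.2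
    rw [smul_inv_smul]

/-- holonomies for both directions, together with the description of the leaves -/
structure Hols (N : Type u₄) [MetricSpace N] [MulAction G N] (T : X ≃ₜ X) (α : L ≃* L) (a : X → G)
    (Es Eu : Subgroup L) (κs κu : ℕ → ℝ) (hs : X → Es → G) (hu : X → Eu → G) : Prop where
  ac : Continuous a
  bc : Continuous (ainv T.symm a)
  s : Hol T α a Es hs
  u : Hol T.symm α.symm (ainv T.symm a) Eu hu
  ls : ∀ p q : X × N, Leaf T a Es κs p q → ∃ v : Es, q = ((v : L) • p.1, hs p.1 v • p.2)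
  lu : ∀ p q : X × N, Leaf T.symm (ainv T.symm a) Eu κu p q →
    ∃ v : Eu, q = ((v : L) • p.1, hu p.1 v • p.2)

theorem T_symm {T : X ≃ₜ X} {α : L ≃* L} (h : ∀ (g : L) (x : X), T (g • x) = α g • T x) (g : L)
    (x : X) : T.symm (g • x) = α.symm g • T.symm x := by
  rw [Homeomorph.symm_apply_eq, h, α.apply_symm_apply, T.apply_symm_apply]

theorem exists_hols {m : Measure X} {ν : Measure N} {T : X ≃ₜ X} {α : L ≃* L} {a : X → G}
    {Es Eu : Subgroup L} {κs κu : ℕ → ℝ} (hB : Base m T α Es Eu) (hF : Fibre (G := G) N ν)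
    (hPH : PH N T α a Es Eu κs κu) : ∃ hs hu, Hols N T α a Es Eu κs κu hs hu := by
  obtain ⟨K, hK⟩ := hPH.lip
  obtain ⟨K', hK'⟩ := hPH.lip'
  have hac : Continuous a := cocycle_continuous hF.emb hK
  have hbc : Continuous (ainv T.symm a) := cocycle_continuous hF.emb hK'
  obtain ⟨hs, hHs, hls⟩ := exists_hol (T := T) (α := α) hF.emb T.continuous hB.equi hac hPH.s
    (invLip_s (T := T.toEquiv) hK hK')
  obtain ⟨hu, hHu, hlu⟩ := exists_hol (T := T.symm) (α := α.symm) hF.emb T.symm.continuous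
    (T_symm hB.equi) hbc hPH.u (invLip_u (T := T.toEquiv) hK hK')
  exact ⟨hs, hu, hac, hbc, hHs, hHu, fun p q h => leaf_graph hPH.s hls h,
    fun p q h => leaf_graph hPH.u hlu h⟩

/-- Every set which is invariant under the holonomies up to null sets is, up to a null set, saturated
by the holonomies. -/
theorem saturated {m : Measure X} [IsFiniteMeasure m] [NeZero m] {ν : Measure N}
    [IsFiniteMeasure ν] {T : X ≃ₜ X} {α : L ≃* L} {a : X → G} {Es Eu : Subgroup L}
    {κs κu : ℕ → ℝ} (hB : Base m T α Es Eu) (hF : Fibre (G := G) N ν)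
    {hs : X → Es → G} {hu : X → Eu → G} (hH : Hols N T α a Es Eu κs κu hs hu) {S : Set (X × N)}
    (hS : MeasurableSet S) (h1 : ∀ v, thet N hs hH.s.cont v ⁻¹' S =ᵐ[m.prod ν] S)
    (h2 : ∀ v, thet N hu hH.u.cont v ⁻¹' S =ᵐ[m.prod ν] S) :
    ∃ S' : Set (X × N), MeasurableSet S' ∧ S' =ᵐ[m.prod ν] S ∧
      ∀ p q : X × N, (Leaf T a Es κs p q ∨ Leaf T.symm (ainv T.symm a) Eu κu p q) →
        (q ∈ S' ↔ p ∈ S') := by
  let mL : MeasurableSpace L := borel L
  have bL : BorelSpace L := ⟨rfl⟩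
  let mG : MeasurableSpace G := borel G
  have bG : BorelSpace G := ⟨rfl⟩
  have scG : SecondCountableTopology G := hF.emb.isEmbedding.secondCountableTopology
  have hm := hF.act_mp
  have hL := hB.act_mp
  have h1 : ∀ v : Es, ∀ᵐ x : X ∂m, Rel ν S x ((v : L) • x) (hs x v) := fun v =>
    Measure.ae_ae_of_ae_prod (h1 v)
  have h2 : ∀ v : Eu, ∀ᵐ x : X ∂m, Rel ν S x ((v : L) • x) (hu x v) := fun v =>
    Measure.ae_ae_of_ae_prod (h2 v)
  have hms : ∀ v : Es, Move m ν S (v : L) (fun x => hs x v) := fun v =>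
    ⟨hH.s.cont.comp (continuous_id.prodMk continuous_const), h1 v⟩
  have hmu : ∀ v : Eu, Move m ν S (v : L) (fun x => hu x v) := fun v =>
    ⟨hH.u.cont.comp (continuous_id.prodMk continuous_const), h2 v⟩
  obtain ⟨k, U, s, hUo, ⟨u0, hu0⟩, hsc, hsE, hsp⟩ := hB.loc
  obtain ⟨Kp, hKp⟩ := PMove.prod (m := m) (ν := ν) (S := S) (G := G) (U := U) hm hL k s (fun i => by
    rcases hsE i with h | h
    · exact PMove.of_hol hH.s.cont h1 (hsc i) h
    · exact PMove.of_hol hH.u.cont h2 (hsc i) h)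
  have hKp' : PMove m ν S U (fun g => g) Kp := by
    refine ⟨continuousOn_id, hKp.cont, fun g hg => ?_⟩
    have := hKp.rel g hg
    rwa [hsp g hg] at this
  obtain ⟨x0, hx0⟩ := exists_chart hS hUo hKp'
  have hmv : ∀ g : L, ∃ κ : X → G, Move m ν S g κ :=
    exists_move hm hL hB.gen (fun v hv => ⟨_, hms ⟨v, hv⟩⟩) (fun v hv => ⟨_, hmu ⟨v, hv⟩⟩)
  choose κ hκ using hmv
  have neL : Nonempty L := ⟨1⟩
  have hch : ∀ j : ℕ, Chart ν S x0 {g | (TopologicalSpace.denseSeq L j)⁻¹ * g ∈ U}
      (fun g => κ (TopologicalSpace.denseSeq L j) (((TopologicalSpace.denseSeq L j)⁻¹ * g) • x0) *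
        Kp x0 ((TopologicalSpace.denseSeq L j)⁻¹ * g)) := fun j =>
    hx0.translate hm hL hB.trans (hκ _)
  have hcov : ∀ g : L, ∃ j, g ∈ {g | (TopologicalSpace.denseSeq L j)⁻¹ * g ∈ U} := by
    intro g
    have ho : IsOpen {b : L | b⁻¹ * g ∈ U} :=
      hUo.preimage (continuous_inv.mul continuous_const)
    have hne : {b : L | b⁻¹ * g ∈ U}.Nonempty := by
      refine ⟨g * u0⁻¹, ?_⟩
      show (g * u0⁻¹)⁻¹ * g ∈ U
      rw [mul_inv_rev, inv_inv, mul_assoc, inv_mul_cancel, mul_one]
      exact hu0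
    obtain ⟨b, hb1, j, rfl⟩ := (TopologicalSpace.denseRange_denseSeq L).exists_mem_open ho hne |>.elim
      (fun j hj => (⟨_, hj, j, rfl⟩ : ∃ b, b ∈ {b : L | b⁻¹ * g ∈ U} ∧
        ∃ j, TopologicalSpace.denseSeq L j = b))
    exact ⟨j, hb1⟩
  obtain ⟨S', hS'm, hS'ae, hsat⟩ := spread hm hL hB.trans hS hch hcov
  refine ⟨S', hS'm, hS'ae, ?_⟩
  rintro p q (h | h)
  · obtain ⟨v, rfl⟩ := hH.ls p q h
    exact hsat v _ (hms v) p.1 p.2
  · obtain ⟨v, rfl⟩ := hH.lu p q h
    exact hsat v _ (hmu v) p.1 p.2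

/-- Under essential accessibility the sets which are invariant under the holonomies up to null sets
are trivial. -/
theorem inv_trivial {m : Measure X} [IsProbabilityMeasure m] {ν : Measure N}
    [IsProbabilityMeasure ν] {T : X ≃ₜ X} {α : L ≃* L} {a : X → G} {Es Eu : Subgroup L}
    {κs κu : ℕ → ℝ} (hB : Base m T α Es Eu) (hF : Fibre (G := G) N ν)
    (hE : EssAcc N T a Es Eu κs κu (m.prod ν))
    {hs : X → Es → G} {hu : X → Eu → G} (hH : Hols N T α a Es Eu κs κu hs hu) {S : Set (X × N)}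
    (hS : MeasurableSet S) (h1 : ∀ v, thet N hs hH.s.cont v ⁻¹' S =ᵐ[m.prod ν] S)
    (h2 : ∀ v, thet N hu hH.u.cont v ⁻¹' S =ᵐ[m.prod ν] S) :
    EventuallyConst S (ae (m.prod ν)) := by
  obtain ⟨S', hS'm, hS'ae, hsat⟩ := saturated hB hF hH hS h1 h2
  have hpath : ∀ p q : X × N, Relation.ReflTransGen
      (fun p q => Leaf T a Es κs p q ∨ Leaf T.symm (ainv T.symm a) Eu κu p q) p q →
      (q ∈ S' ↔ p ∈ S') := by
    intro p q h
    induction h with
    | refl => rfl
    | tail _ h2 ih => exact (hsat _ _ h2).trans ih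
  have hcases : (m.prod ν) S' = 0 ∨ (m.prod ν) S'ᶜ = 0 := by
    by_contra hcon
    push Not at hcon
    obtain ⟨p, hp, q, hq, hpq⟩ := hE S' S'ᶜ hS'm hS'm.compl (pos_iff_ne_zero.mpr hcon.1)
      (pos_iff_ne_zero.mpr hcon.2)
    exact hq ((hpath p q hpq).mpr hp)
  rw [eventuallyConst_set']
  rcases hcases with h | h
  · left
    exact hS'ae.symm.trans (ae_eq_empty.mpr h)
  · right
    exact hS'ae.symm.trans (ae_eq_univ.mpr h)

theorem ergodic_skew {m : Measure X} [IsProbabilityMeasure m] {ν : Measure N}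
    [IsProbabilityMeasure ν] {T : X ≃ₜ X} {α : L ≃* L} {a : X → G} {Es Eu : Subgroup L}
    {κs κu : ℕ → ℝ} (hB : Base m T α Es Eu) (hF : Fibre (G := G) N ν)
    (hPH : PH N T α a Es Eu κs κu) (hE : EssAcc N T a Es Eu κs κu (m.prod ν)) :
    Ergodic (skew T a : X × N → X × N) (m.prod ν) := by
  obtain ⟨hs, hu, hH⟩ := exists_hols hB hF hPH
  have hTm' : MeasurePreserving T.symm m m :=
    hB.T_mp.symm T.toMeasurableEquiv
  refine ⟨skew_mp hF.act_mp hB.T_mp hH.ac, ⟨?_⟩⟩
  intro S hS hSf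
  have hSg : skew T.symm (ainv T.symm a) ⁻¹' S = S := by
    conv_lhs => rw [← hSf]
    ext p
    rw [mem_preimage, mem_preimage]
    have := skew_ainv (N := N) T.toEquiv a p
    exact iff_of_eq (congrArg (· ∈ S) this)
  exact inv_trivial hB hF hE hH hS
    (mautner hF.act_mp hB.act_mp hB.T_mp hB.equi hH.ac (fun v hv => (hPH.s.inv v).mp hv) hPH.s.contr
      hH.s hS hSf)
    (mautner hF.act_mp hB.act_mp hTm' (T_symm hB.equi) hH.bc (fun v hv => (hPH.u.inv v).mp hv)
      hPH.u.contr hH.u hS hSg)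

end main

end Pool.Agent.Work.MP_adbfe6_an.Ext
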