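import Mathlib

/-!
# Skew products over homogeneous partially hyperbolic systems

Base: a compact space `X` on which a locally compact group `L` acts transitively, with a map `T` such
that `T (g • x) = α g • T x` for an automorphism `α` of `L` (for example a hyperbolic automorphism of a
torus or of a compact nilmanifold, or the time-`t` map of the geodesic flow of a compact hyperbolic
surface).  Fibre: a compact metric space `N` on which a locally compact group `G` acts.  The skew
product is `f (x, y) = (T x, a x • y)`.
-/

set_option autoImplicit false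

open MeasureTheory Filter Topology Set

namespace Pool.Agent.Work.MP_adbfe6_an.Ext

universe u₁ u₂ u₃ u₄

section defs

variable {L : Type u₁} {X : Type u₂} {G : Type u₃} (N : Type u₄)

/-- the skew product `f (x, y) = (T x, a x • y)` -/
def skew {N : Type u₄} [SMul G N] (T : X → X) (a : X → G) (p : X × N) : X × N :=
  (T p.1, a p.1 • p.2)

/-- the cocycle of the inverse: the inverse of `skew T a` is `skew T' (ainv T' a)`, `T' = T⁻¹` -/
def ainv [Inv G] (T' : X → X) (a : X → G) (x : X) : G := (a (T' x))⁻¹

/-- the action of `G` on `N` as a map `G → C(N, N)` -/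
def actMap (G : Type u₃) [Group G] [MulAction G N] [TopologicalSpace G] [TopologicalSpace N]
    [ContinuousSMul G N] (g : G) : C(N, N) := ⟨fun y => g • y, continuous_const_smul g⟩

/-- On some nonempty open subset of `L` the elements are products of `k` factors, each in `Es` or each
in `Eu`, which depend continuously on the element. -/
def LocFact [Group L] [TopologicalSpace L] (Es Eu : Subgroup L) : Prop :=
  ∃ (k : ℕ) (U : Set L) (s : Fin k → L → L), IsOpen U ∧ U.Nonempty ∧
    (∀ i, ContinuousOn (s i) U) ∧ (∀ i, (∀ g ∈ U, s i g ∈ Es) ∨ (∀ g ∈ U, s i g ∈ Eu)) ∧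
    ∀ g ∈ U, (List.ofFn fun i => s i g).prod = g

variable [Group L] [TopologicalSpace L] [MetricSpace X] [MulAction L X] [Group G] [MetricSpace N]
  [MulAction G N]

/-- `E` is a subgroup of `L` contracted by `α`; the `n`-th image of a translation by an element of `E`
moves the points of `X` by at most a constant times `κ n`, and the fibre maps of `(skew T a)^n` contract
distances by much less than `κ n` (domination). -/
structure Side (T : X → X) (α : L → L) (a : X → G) (E : Subgroup L) (κ : ℕ → ℝ) : Prop where
  inv : ∀ v, v ∈ E ↔ α v ∈ E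
  contr : ∀ v ∈ E, Tendsto (fun n => α^[n] v) atTop (𝓝 1)
  pos : ∀ n, 0 < κ n
  rate : ∃ ρ : E → ℝ, Continuous ρ ∧ ∀ (n : ℕ) (v : E) (x : X),
    dist (α^[n] (v : L) • x) x ≤ κ n * ρ v
  dom : ∃ C r : ℝ, 0 < r ∧ r < 1 ∧ ∀ (n : ℕ) (x : X) (y y' : N),
    κ n * dist y y' ≤ C * r ^ n * dist ((skew T a)^[n] (x, y)).2 ((skew T a)^[n] (x, y')).2

/-- `q` is in the leaf of `p` for the direction `E`: the base points differ by an element of `E` and
the fibre components of the orbits approach each other at least as fast as `κ n`. -/
def Leaf {N : Type u₄} [MetricSpace N] [MulAction G N] (T : X → X) (a : X → G) (E : Subgroup L)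
    (κ : ℕ → ℝ) (p q : X × N) : Prop :=
  ∃ v ∈ E, q.1 = v • p.1 ∧
    ∃ C : ℝ, ∀ n : ℕ, dist ((skew T a)^[n] p).2 ((skew T a)^[n] q).2 ≤ C * κ n

/-- the base: `T` is an affine map of the homogeneous space `X` of `L`, preserving the invariant
measure `m`, and `L` is generated by the subgroups `Es` and `Eu` -/
structure Base [MeasurableSpace X] (m : Measure X) (T : X ≃ₜ X) (α : L ≃* L)
    (Es Eu : Subgroup L) : Prop where
  trans : ∀ x x' : X, ∃ g : L, g • x = x'
  act_mp : ∀ g : L, MeasurePreserving (fun x : X => g • x) m m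
  T_mp : MeasurePreserving T m m
  equi : ∀ (g : L) (x : X), T (g • x) = α g • T x
  gen : Es ⊔ Eu = ⊤
  loc : LocFact Es Eu

/-- the fibre: `G` acts on `N` preserving `ν`, and is a closed subgroup of the homeomorphisms -/
structure Fibre [TopologicalSpace G] [ContinuousSMul G N] [MeasurableSpace N]
    (ν : Measure N) : Prop where
  emb : IsClosedEmbedding (actMap N G)
  act_mp : ∀ g : G, MeasurePreserving (fun y : N => g • y) ν ν

/-- `f = skew T a` is a partially hyperbolic skew product: `f` and `f⁻¹` are Lipschitz, the direction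
`Es` is contracted by `f` and dominated by the fibres, `Eu` is contracted by `f⁻¹` and dominated by the
fibres. -/
structure PH (T : X ≃ₜ X) (α : L ≃* L) (a : X → G) (Es Eu : Subgroup L) (κs κu : ℕ → ℝ) :
    Prop where
  lip : ∃ K, LipschitzWith K (skew (N := N) T a)
  lip' : ∃ K, LipschitzWith K (skew (N := N) T.symm (ainv T.symm a))
  s : Side N T α a Es κs
  u : Side N T.symm α.symm (ainv T.symm a) Eu κu

/-- essential accessibility: two measurable sets of positive measure are joined by an `su`-path -/
def EssAcc [MeasurableSpace X] [MeasurableSpace N] (T : X ≃ₜ X) (a : X → G) (Es Eu : Subgroup L)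
    (κs κu : ℕ → ℝ) (μ : Measure (X × N)) : Prop :=
  ∀ S S' : Set (X × N), MeasurableSet S → MeasurableSet S' → 0 < μ S → 0 < μ S' →
    ∃ p ∈ S, ∃ q ∈ S', Relation.ReflTransGen
      (fun p q => Leaf T a Es κs p q ∨ Leaf T.symm (ainv T.symm a) Eu κu p q) p q

/-- `f` is mixing for the measure `μ` -/
def Mixing {M : Type u₄} [MeasurableSpace M] (f : M → M) (μ : Measure M) : Prop :=
  ∀ S S' : Set M, MeasurableSet S → MeasurableSet S' →
    Tendsto (fun n : ℕ => μ (f^[n] ⁻¹' S ∩ S')) atTop (𝓝 (μ S * μ S'))

end defs

end Pool.Agent.Work.MP_adbfe6_an.Ext
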