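import Pool.Agent.Work.MP_adbfe6_an.Ext.Defs

/-!
# Holonomies
-/

set_option autoImplicit false

open MeasureTheory Filter Topology Set

namespace Pool.Agent.Work.MP_adbfe6_an.Ext

universe u₁ u₂ u₃ u₄

section algebra

variable {L : Type u₁} {X : Type u₂} {G : Type u₃} {N : Type u₄} [Group G] [MulAction G N]

/-- the cocycle: `f^n (x, y) = (T^n x, cyc T a n x • y)` -/
def cyc (T : X → X) (a : X → G) : ℕ → X → G
  | 0, _ => 1
  | n + 1, x => a (T^[n] x) * cyc T a n x

theorem cyc_succ' (T : X → X) (a : X → G) (n : ℕ) (x : X) :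
    cyc T a (n + 1) x = cyc T a n (T x) * a x := by
  induction n with
  | zero => simp [cyc]
  | succ n ih =>
    rw [cyc, ih, cyc, mul_assoc, Function.iterate_succ_apply]

theorem skew_iterate (T : X → X) (a : X → G) (n : ℕ) (p : X × N) :
    (skew T a)^[n] p = (T^[n] p.1, cyc T a n p.1 • p.2) := by
  induction n with
  | zero => simp [cyc]
  | succ n ih =>
    rw [Function.iterate_succ_apply', ih, skew, Function.iterate_succ_apply', cyc, mul_smul]

variable [Group L] [MulAction L X]

theorem T_iterate {T : X → X} {α : L → L} (hT : ∀ (g : L) (x : X), T (g • x) = α g • T x) (n : ℕ)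
    (g : L) (x : X) : T^[n] (g • x) = α^[n] g • T^[n] x := by
  induction n with
  | zero => rfl
  | succ n ih =>
    rw [Function.iterate_succ_apply', ih, hT, Function.iterate_succ_apply',
      Function.iterate_succ_apply']

/-- the approximations of the holonomy -/
def zap (T : X → X) (a : X → G) (n : ℕ) (x : X) (v : L) : G :=
  (cyc T a n (v • x))⁻¹ * cyc T a n x

theorem zap_equi {T : X → X} {α : L → L} (hT : ∀ (g : L) (x : X), T (g • x) = α g • T x)
    (a : X → G) (n : ℕ) (x : X) (v : L) :
    a (v • x) * zap T a (n + 1) x v = zap T a n (T x) (α v) * a x := by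
  unfold zap
  rw [cyc_succ', cyc_succ', hT]
  group

end algebra

section metric

variable {L : Type u₁} {X : Type u₂} {G : Type u₃} {N : Type u₄} [Group L] [TopologicalSpace L]
  [MetricSpace X] [MulAction L X] [Group G] [MetricSpace N] [MulAction G N]

/-- the Lipschitz condition needed for the holonomies -/
def InvLip (N : Type u₄) [MetricSpace N] [MulAction G N] (a : X → G) : Prop :=
  ∃ K : ℝ, 0 ≤ K ∧ ∀ (x x' : X) (y : N), dist ((a x)⁻¹ • y) ((a x')⁻¹ • y) ≤ K * dist x x'

theorem dom_bound {T : X → X} {α : L → L} {a : X → G} {E : Subgroup L} {κ : ℕ → ℝ}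
    (hS : Side N T α a E κ) : ∃ C r : ℝ, 0 ≤ C ∧ 0 < r ∧ r < 1 ∧
      ∀ (n : ℕ) (x : X) (y y' : N) (c : ℝ), dist (cyc T a n x • y) (cyc T a n x • y') ≤ c * κ n →
        dist y y' ≤ C * c * r ^ n := by
  obtain ⟨C, r, hr0, hr1, hd⟩ := hS.dom
  refine ⟨|C|, r, abs_nonneg C, hr0, hr1, ?_⟩
  intro n x y y' c hb
  have hpos : 0 < κ n := hS.pos n
  have h1 := hd n x y y'
  rw [skew_iterate, skew_iterate] at h1
  simp only at h1
  have h2 : C * r ^ n * dist (cyc T a n x • y) (cyc T a n x • y') ≤ |C| * r ^ n * (c * κ n) := by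
    have h3 : C * r ^ n * dist (cyc T a n x • y) (cyc T a n x • y') ≤
        |C| * r ^ n * dist (cyc T a n x • y) (cyc T a n x • y') := by
      refine mul_le_mul_of_nonneg_right ?_ dist_nonneg
      exact mul_le_mul_of_nonneg_right (le_abs_self C) (by positivity)
    refine h3.trans ?_
    exact mul_le_mul_of_nonneg_left hb (by positivity)
  have h4 : κ n * dist y y' ≤ κ n * (|C| * c * r ^ n) := by
    refine (h1.trans h2).trans (le_of_eq ?_)
    ring
  exact le_of_mul_le_mul_left h4 hpos

theorem zap_step {T : X → X} {α : L → L} (hT : ∀ (g : L) (x : X), T (g • x) = α g • T x)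
    {a : X → G} {E : Subgroup L} {κ : ℕ → ℝ} (hS : Side N T α a E κ) (hL : InvLip N a) :
    ∃ (K r : ℝ) (ρ : E → ℝ), 0 ≤ K ∧ 0 < r ∧ r < 1 ∧ Continuous ρ ∧
      ∀ (n : ℕ) (x : X) (v : E) (y : N),
      dist (zap T a n x (v : L) • y) (zap T a (n + 1) x (v : L) • y) ≤ K * ρ v * r ^ n := by
  obtain ⟨C, r, hC, hr0, hr1, hc⟩ := dom_bound hS
  obtain ⟨K, hK0, hK⟩ := hL
  obtain ⟨ρ, hρc, hρ⟩ := hS.rate
  refine ⟨C * K, r, ρ, by positivity, hr0, hr1, hρc, ?_⟩
  intro n x v y
  have h1 := hc n ((v : L) • x) (zap T a n x (v : L) • y) (zap T a (n + 1) x (v : L) • y)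
    (K * ρ v) ?_
  · refine h1.trans (le_of_eq ?_)
    ring
  · have e1 : cyc T a n ((v : L) • x) • zap T a n x (v : L) • y = cyc T a n x • y := by
      rw [zap, mul_smul, smul_inv_smul]
    have e2 : cyc T a n ((v : L) • x) • zap T a (n + 1) x (v : L) • y =
        (a (T^[n] ((v : L) • x)))⁻¹ • a (T^[n] x) • cyc T a n x • y := by
      rw [zap, cyc, cyc, mul_inv_rev, mul_smul, mul_smul, smul_inv_smul, mul_smul]
    have e3 : dist (cyc T a n x • y)
        ((a (T^[n] ((v : L) • x)))⁻¹ • a (T^[n] x) • cyc T a n x • y) =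
        dist ((a (T^[n] x))⁻¹ • a (T^[n] x) • cyc T a n x • y)
        ((a (T^[n] ((v : L) • x)))⁻¹ • a (T^[n] x) • cyc T a n x • y) := by
      rw [inv_smul_smul]
    rw [e1, e2, e3]
    refine (hK _ _ _).trans ?_
    rw [T_iterate hT, dist_comm, mul_assoc, mul_comm (ρ v)]
    exact mul_le_mul_of_nonneg_left (hρ n v _) hK0

variable [CompactSpace N] [TopologicalSpace G] [ContinuousSMul G N]

theorem exists_lim (hG : IsClosedEmbedding (actMap N G)) {T : X → X} {α : L → L}
    (hT : ∀ (g : L) (x : X), T (g • x) = α g • T x)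
    {a : X → G} {E : Subgroup L} {κ : ℕ → ℝ} (hS : Side N T α a E κ) (hL : InvLip N a) :
    ∃ h : X → E → G, (∀ (x : X) (v : E),
        Tendsto (fun n => zap T a n x (v : L)) atTop (𝓝 (h x v))) ∧
      ∃ (K r : ℝ) (ρ : E → ℝ), 0 ≤ K ∧ 0 < r ∧ r < 1 ∧ Continuous ρ ∧
        ∀ (n : ℕ) (x : X) (v : E),
        dist (actMap N G (zap T a n x (v : L))) (actMap N G (h x v)) ≤
          K * |ρ v| * r ^ n / (1 - r) := by
  obtain ⟨K, r, ρ, hK, hr0, hr1, hρ, hs⟩ := zap_step hT hS hL
  have hs' : ∀ (n : ℕ) (x : X) (v : E), dist (actMap N G (zap T a n x (v : L)))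
      (actMap N G (zap T a (n + 1) x (v : L))) ≤ K * |ρ v| * r ^ n := by
    intro n x v
    rw [ContinuousMap.dist_le (by positivity)]
    intro y
    refine (hs n x v y).trans ?_
    have := le_abs_self (ρ v)
    gcongr
  have hc : ∀ (x : X) (v : E), CauchySeq (fun n => actMap N G (zap T a n x (v : L))) := fun x v =>
    cauchySeq_of_le_geometric r (K * |ρ v|) hr1 (fun n => hs' n x v)
  choose F hF using fun x v => cauchySeq_tendsto_of_complete (hc x v)
  have hmem : ∀ x v, F x v ∈ range (actMap N G) := fun x v =>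
    hG.isClosed_range.mem_of_tendsto (hF x v) (Eventually.of_forall fun n => mem_range_self _)
  choose h hh using hmem
  refine ⟨h, ?_, K, r, ρ, hK, hr0, hr1, hρ, ?_⟩
  · intro x v
    rw [hG.isEmbedding.tendsto_nhds_iff, hh]
    exact hF x v
  · intro n x v
    rw [hh]
    exact dist_le_of_le_geometric_of_tendsto r (K * |ρ v|) hr1 (fun n => hs' n x v) (hF x v) n

variable [IsTopologicalGroup G] [ContinuousSMul L X]

theorem cyc_continuous {T : X → X} (hTc : Continuous T) {a : X → G} (ha : Continuous a) (n : ℕ) :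
    Continuous (cyc T a n) := by
  induction n with
  | zero => exact continuous_const
  | succ n ih => exact (ha.comp (hTc.iterate n)).mul ih

theorem zap_continuous {T : X → X} (hTc : Continuous T) {a : X → G} (ha : Continuous a) (n : ℕ) :
    Continuous (fun p : X × L => zap T a n p.1 p.2) := by
  unfold zap
  have h1 := cyc_continuous hTc ha n
  exact ((h1.comp (continuous_snd.smul continuous_fst)).inv).mul (h1.comp continuous_fst)

/-- continuous holonomies for the data `(T, α, a, E)` -/
structure Hol {X : Type u₂} {G : Type u₃} [TopologicalSpace X] [MulAction L X] [Group G]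
    [TopologicalSpace G] (T : X → X) (α : L → L) (a : X → G)
    (E : Subgroup L) (h : X → E → G) : Prop where
  cont : Continuous (fun p : X × E => h p.1 p.2)
  one : ∀ x, h x 1 = 1
  equi : ∀ (x : X) (v w : E), (w : L) = α v → a ((v : L) • x) * h x v = h (T x) w * a x

theorem exists_hol (hG : IsClosedEmbedding (actMap N G)) {T : X → X} (hTc : Continuous T)
    {α : L → L} (hT : ∀ (g : L) (x : X), T (g • x) = α g • T x)
    {a : X → G} {E : Subgroup L} {κ : ℕ → ℝ} (ha : Continuous a) (hS : Side N T α a E κ)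
    (hL : InvLip N a) : ∃ h : X → E → G, Hol T α a E h ∧
      ∀ (x : X) (v : E), Tendsto (fun n => zap T a n x (v : L)) atTop (𝓝 (h x v)) := by
  have t2 : T2Space G := hG.isEmbedding.t2Space
  obtain ⟨h, hh, K, r, ρ, hK, hr0, hr1, hρ, hb⟩ := exists_lim hG hT hS hL
  refine ⟨h, ⟨?_, ?_, ?_⟩, hh⟩
  · -- continuity
    have hlu : TendstoLocallyUniformly
        (fun (n : ℕ) (p : X × E) => actMap N G (zap T a n p.1 (p.2 : L)))
        (fun p : X × E => actMap N G (h p.1 p.2)) atTop := by
      rw [Metric.tendstoLocallyUniformly_iff]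
      intro ε hε p
      refine ⟨{q : X × E | |ρ q.2| < |ρ p.2| + 1}, ?_, ?_⟩
      · refine IsOpen.mem_nhds ?_ ?_
        · exact isOpen_lt (continuous_abs.comp (hρ.comp continuous_snd)) continuous_const
        · show |ρ p.2| < |ρ p.2| + 1
          linarith
      · have ht : Tendsto (fun n : ℕ => K * (|ρ p.2| + 1) * r ^ n / (1 - r)) atTop
            (𝓝 0) := by
          have h1 := tendsto_pow_atTop_nhds_zero_of_lt_one hr0.le hr1
          have h2 := (h1.const_mul (K * (|ρ p.2| + 1))).div_const (1 - r)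
          simpa using h2
        filter_upwards [ht.eventually (gt_mem_nhds hε)] with n hn
        intro q hq
        rw [dist_comm]
        refine lt_of_le_of_lt (hb n q.1 q.2) (lt_of_le_of_lt ?_ hn)
        have hq' : |ρ q.2| ≤ |ρ p.2| + 1 := le_of_lt hq
        have h1r : 0 < 1 - r := by linarith
        gcongr
    have hact : Continuous (actMap N G) := hG.continuous
    have hc : Continuous (fun p : X × E => actMap N G (h p.1 p.2)) := by
      refine hlu.continuous (Frequently.of_forall fun n => ?_)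
      exact hact.comp ((zap_continuous hTc ha n).comp
        (continuous_fst.prodMk (continuous_subtype_val.comp continuous_snd)))
    exact hG.isEmbedding.continuous_iff.mpr hc
  · intro x
    have h1 : Tendsto (fun n => zap T a n x ((1 : E) : L)) atTop (𝓝 1) := by
      have : (fun n => zap T a n x ((1 : E) : L)) = fun _ => (1 : G) := by
        funext n
        unfold zap
        rw [OneMemClass.coe_one, one_smul, inv_mul_cancel]
      rw [this]
      exact tendsto_const_nhds
    exact tendsto_nhds_unique (hh x 1) h1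
  · intro x v w hw
    have h1 : Tendsto (fun n => a ((v : L) • x) * zap T a (n + 1) x (v : L)) atTop
        (𝓝 (a ((v : L) • x) * h x v)) :=
      ((tendsto_add_atTop_iff_nat 1).mpr (hh x v)).const_mul _
    have h2 : Tendsto (fun n => zap T a n (T x) (w : L) * a x) atTop
        (𝓝 (h (T x) w * a x)) := (hh (T x) w).mul_const _
    refine tendsto_nhds_unique h1 ?_
    convert h2 using 2 with n
    rw [zap_equi hT, hw]

omit [CompactSpace N] [IsTopologicalGroup G] [ContinuousSMul L X] in
theorem leaf_graph {T : X → X} {α : L → L} {a : X → G} {E : Subgroup L} {κ : ℕ → ℝ}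
    (hS : Side N T α a E κ) {h : X → E → G}
    (hh : ∀ (x : X) (v : E), Tendsto (fun n => zap T a n x (v : L)) atTop (𝓝 (h x v)))
    {p q : X × N} (hpq : Leaf T a E κ p q) :
    ∃ v : E, q = ((v : L) • p.1, h p.1 v • p.2) := by
  obtain ⟨v, hv, hq1, c, hb⟩ := hpq
  refine ⟨⟨v, hv⟩, ?_⟩
  refine Prod.ext hq1 ?_
  show q.2 = h p.1 ⟨v, hv⟩ • p.2
  obtain ⟨C, r, hC, hr0, hr1, hc⟩ := dom_bound hS
  have h1 : Tendsto (fun n => zap T a n p.1 v • p.2) atTop (𝓝 q.2) := by
    rw [tendsto_iff_dist_tendsto_zero]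
    have h2 : Tendsto (fun n : ℕ => C * c * r ^ n) atTop (𝓝 0) := by
      have := (tendsto_pow_atTop_nhds_zero_of_lt_one hr0.le hr1).const_mul (C * c)
      simpa using this
    refine squeeze_zero (fun n => dist_nonneg) (fun n => ?_) h2
    refine hc n (v • p.1) _ _ c ?_
    have h3 := hb n
    rw [skew_iterate, skew_iterate, hq1] at h3
    simp only at h3
    rw [zap, mul_smul, smul_inv_smul]
    exact h3
  exact tendsto_nhds_unique h1 ((hh p.1 ⟨v, hv⟩).smul_const p.2)

end metric

section lip

variable {X : Type u₂} {G : Type u₃} {N : Type u₄} [MetricSpace X] [Group G] [MetricSpace N]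
  [MulAction G N]

theorem lip_fibre {T : X → X} {a : X → G} {K : NNReal}
    (h : LipschitzWith K (skew (N := N) T a)) (x x' : X) (y : N) :
    dist (a x • y) (a x' • y) ≤ K * dist x x' := by
  have h1 := h.dist_le_mul (x, y) (x', y)
  rw [Prod.dist_eq, Prod.dist_eq] at h1
  have h2 : dist (a x • y) (a x' • y) ≤ K * max (dist x x') (dist y y) :=
    le_trans (le_max_right _ _) h1
  rw [dist_self, max_eq_left dist_nonneg] at h2
  exact h2

theorem lip_base {T : X → X} {a : X → G} {K : NNReal}
    (h : LipschitzWith K (skew (N := N) T a)) (y : N) (x x' : X) :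
    dist (T x) (T x') ≤ K * dist x x' := by
  have h1 := h.dist_le_mul (x, y) (x', y)
  rw [Prod.dist_eq, Prod.dist_eq] at h1
  have h2 : dist (T x) (T x') ≤ K * max (dist x x') (dist y y) :=
    le_trans (le_max_left _ _) h1
  rw [dist_self, max_eq_left dist_nonneg] at h2
  exact h2

/-- `f` and `f⁻¹` Lipschitz: the condition for the holonomies along `Es` -/
theorem invLip_s {T : X ≃ X} {a : X → G} {K K' : NNReal}
    (h : LipschitzWith K (skew (N := N) T a))
    (h' : LipschitzWith K' (skew (N := N) T.symm (ainv T.symm a))) : InvLip N a := by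
  refine ⟨K' * K, by positivity, fun x x' y => ?_⟩
  have h1 := lip_fibre h' (T x) (T x') y
  unfold ainv at h1
  rw [Equiv.symm_apply_apply, Equiv.symm_apply_apply] at h1
  refine h1.trans ?_
  rw [mul_assoc]
  exact mul_le_mul_of_nonneg_left (lip_base h y x x') K'.2

/-- the condition for the holonomies along `Eu` -/
theorem invLip_u {T : X ≃ X} {a : X → G} {K K' : NNReal}
    (h : LipschitzWith K (skew (N := N) T a))
    (h' : LipschitzWith K' (skew (N := N) T.symm (ainv T.symm a))) :
    InvLip N (ainv T.symm a) := by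
  refine ⟨K * K', by positivity, fun x x' y => ?_⟩
  unfold ainv
  rw [inv_inv, inv_inv]
  refine (lip_fibre h _ _ y).trans ?_
  rw [mul_assoc]
  exact mul_le_mul_of_nonneg_left (lip_base h' y x x') K.2

theorem cocycle_continuous [CompactSpace N] [TopologicalSpace G] [ContinuousSMul G N]
    (hG : IsClosedEmbedding (actMap N G)) {T : X → X} {a : X → G} {K : NNReal}
    (h : LipschitzWith K (skew (N := N) T a)) : Continuous a := by
  rw [hG.isEmbedding.continuous_iff]
  have h1 : LipschitzWith K (actMap N G ∘ a) := by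
    refine LipschitzWith.of_dist_le_mul fun x x' => ?_
    rw [ContinuousMap.dist_le (by positivity)]
    intro y
    exact lip_fibre h x x' y
  exact h1.continuous

end lip

end Pool.Agent.Work.MP_adbfe6_an.Ext
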