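import Pool.Agent.Work.MP_adbfe6_an.Ext.Holo

/-!
# The Mautner phenomenon for the holonomies
-/

set_option autoImplicit false

open MeasureTheory Filter Topology Set
open scoped symmDiff

namespace Pool.Agent.Work.MP_adbfe6_an.Ext

universe u₁ u₂ u₃ u₄

section rel

variable {X : Type u₂} {G : Type u₃} {N : Type u₄} [Group G] [MulAction G N] [MeasurableSpace N]
  {ν : Measure N} {S : Set (X × N)}

/-- `g` maps the slice of `S` over `x` to the slice of `S` over `x'`, up to a null set. -/
def Rel (ν : Measure N) (S : Set (X × N)) (x x' : X) (g : G) : Prop :=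
  {y : N | (x', g • y) ∈ S} =ᵐ[ν] {y : N | (x, y) ∈ S}

theorem rel_one (x : X) : Rel ν S x x (1 : G) := by
  unfold Rel
  simp only [one_smul]
  exact ae_eq_refl _

theorem rel_mul (hm : ∀ g : G, MeasurePreserving (fun y : N => g • y) ν ν) {x x' x'' : X}
    {g g' : G} (h : Rel ν S x x' g) (h' : Rel ν S x' x'' g') : Rel ν S x x'' (g' * g) := by
  unfold Rel at *
  have h1 : (fun y : N => g • y) ⁻¹' {y : N | (x'', g' • y) ∈ S} =ᵐ[ν]
      (fun y : N => g • y) ⁻¹' {y : N | (x', y) ∈ S} :=
    (hm g).quasiMeasurePreserving.preimage_ae_eq h'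
  have h2 : {y : N | (x'', (g' * g) • y) ∈ S} = (fun y : N => g • y) ⁻¹' {y : N | (x'', g' • y) ∈ S} := by
    ext y
    simp only [mem_ofPred_eq, mem_preimage, mul_smul]
  rw [h2]
  exact h1.trans h

theorem rel_inv (hm : ∀ g : G, MeasurePreserving (fun y : N => g • y) ν ν) {x x' : X}
    {g : G} (h : Rel ν S x x' g) : Rel ν S x' x g⁻¹ := by
  unfold Rel at *
  have h1 : (fun y : N => g⁻¹ • y) ⁻¹' {y : N | (x', g • y) ∈ S} =ᵐ[ν]
      (fun y : N => g⁻¹ • y) ⁻¹' {y : N | (x, y) ∈ S} :=
    (hm g⁻¹).quasiMeasurePreserving.preimage_ae_eq h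
  have h2 : (fun y : N => g⁻¹ • y) ⁻¹' {y : N | (x', g • y) ∈ S} = {y : N | (x', y) ∈ S} := by
    ext y
    simp only [mem_ofPred_eq, mem_preimage, smul_inv_smul]
  rw [h2] at h1
  exact h1.symm

theorem rel_iff_null (x x' : X) (g : G) :
    Rel ν S x x' g ↔ ν {y : N | ¬ ((x', g • y) ∈ S ↔ (x, y) ∈ S)} = 0 := by
  unfold Rel
  rw [eventuallyEq_set, ae_iff]
  rfl

end rel

section closed

variable {X : Type u₂} {G : Type u₃} {N : Type u₄} [MeasurableSpace X] [Group G]
  [TopologicalSpace G] [MulAction G N]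
  [MetricSpace N] [CompactSpace N] [MeasurableSpace N] [BorelSpace N] [ContinuousSMul G N]
  {ν : Measure N} [IsFiniteMeasure ν] {S : Set (X × N)}

theorem rel_closed (hm : ∀ g : G, MeasurePreserving (fun y : N => g • y) ν ν)
    (hS : MeasurableSet S) (x x' : X) : IsClosed {g : G | Rel ν S x x' g} := by
  let F : G → C(N, N) := fun g => ⟨fun y => g • y, continuous_const_smul g⟩
  have hF : Continuous F := by
    refine ContinuousMap.continuous_of_continuous_uncurry F ?_
    exact continuous_smul
  have ht : MeasurableSet {y : N | (x', y) ∈ S} := measurable_prodMk_left hS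
  exact isClosed_setOfPred_preimage_ae_eq (f := F) hF (fun g => hm g) {y : N | (x, y) ∈ S}
    ht.nullMeasurableSet (measure_ne_top ν _)

end closed

section mautner

variable {L : Type u₁} {X : Type u₂} {G : Type u₃} {N : Type u₄} [Group L] [TopologicalSpace L]
  [MetricSpace X] [CompactSpace X] [MeasurableSpace X] [BorelSpace X] [MulAction L X]
  [ContinuousSMul L X] [Group G] [TopologicalSpace G] [MulAction G N]
  [MetricSpace N] [CompactSpace N] [MeasurableSpace N] [BorelSpace N] [ContinuousSMul G N]
  {m : Measure X} [IsFiniteMeasure m] {ν : Measure N} [IsFiniteMeasure ν] {S : Set (X × N)}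
  {T : X → X} {α : L → L} {a : X → G} {E : Subgroup L} {h : X → E → G}

omit [CompactSpace X] [BorelSpace X] in
theorem skew_mp [OpensMeasurableSpace X] (hm : ∀ g : G, MeasurePreserving (fun y : N => g • y) ν ν)
    (hT : MeasurePreserving T m m) {g : X → G} (hg : Continuous g) :
    MeasurePreserving (fun p : X × N => (T p.1, g p.1 • p.2)) (m.prod ν) (m.prod ν) := by
  refine hT.skew_product (g := fun x y => g x • y) ?_ ?_
  · have : Continuous (fun p : X × N => g p.1 • p.2) :=
      (hg.comp continuous_fst).smul continuous_snd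
    exact this.measurable
  · exact Eventually.of_forall fun x => (hm (g x)).map_eq

/-- the holonomy along `w` as a homeomorphism of the whole space -/
def thet (N : Type u₄) [MetricSpace N] [MulAction G N] [ContinuousSMul G N] (h : X → E → G)
    (hc : Continuous (fun p : X × E => h p.1 p.2)) (w : E) : C(X × N, X × N) :=
  ⟨fun p => ((w : L) • p.1, h p.1 w • p.2), by
    refine (continuous_const.smul continuous_fst).prodMk ?_
    exact (hc.comp (continuous_fst.prodMk continuous_const)).smul continuous_snd⟩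

omit [CompactSpace X] [MeasurableSpace X] [BorelSpace X] [CompactSpace N] [MeasurableSpace N]
  [BorelSpace N] in
theorem thet_continuous (hc : Continuous (fun p : X × E => h p.1 p.2)) :
    Continuous (thet N h hc) := by
  refine ContinuousMap.continuous_of_continuous_uncurry _ ?_
  show Continuous (fun q : E × (X × N) => ((q.1 : L) • q.2.1, h q.2.1 q.1 • q.2.2))
  refine ((continuous_subtype_val.comp continuous_fst).smul
    (continuous_fst.comp continuous_snd)).prodMk ?_
  exact (hc.comp ((continuous_fst.comp continuous_snd).prodMk continuous_fst)).smul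
    (continuous_snd.comp continuous_snd)

/-- the orbit of an element of `E` -/
def orb (α : L → L) {E : Subgroup L} (hE : ∀ v ∈ E, α v ∈ E) (v : E) : ℕ → E
  | 0 => v
  | n + 1 => ⟨α (orb α hE v n), hE _ (orb α hE v n).2⟩

omit [TopologicalSpace L] in
theorem orb_coe (hE : ∀ v ∈ E, α v ∈ E) (v : E) (n : ℕ) :
    ((orb α hE v n : E) : L) = α^[n] v := by
  induction n with
  | zero => rfl
  | succ n ih =>
    rw [Function.iterate_succ_apply', ← ih]
    rfl

omit [CompactSpace X] [MeasurableSpace X] [BorelSpace X] [CompactSpace N] [MeasurableSpace N]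
  [BorelSpace N] in
theorem thet_comm (hT : ∀ (g : L) (x : X), T (g • x) = α g • T x) (hH : Hol T α a E h)
    (hE : ∀ v ∈ E, α v ∈ E) (v : E) (n : ℕ) (p : X × N) :
    (skew T a)^[n] (thet N h hH.cont v p) =
      thet N h hH.cont (orb α hE v n) ((skew T a)^[n] p) := by
  induction n with
  | zero => rfl
  | succ n ih =>
    rw [Function.iterate_succ_apply', ih, Function.iterate_succ_apply']
    set q := (skew T a)^[n] p with hq
    show (T ((orb α hE v n : L) • q.1), a ((orb α hE v n : L) • q.1) • h q.1 (orb α hE v n) • q.2) =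
      ((orb α hE v (n + 1) : L) • T q.1, h (T q.1) (orb α hE v (n + 1)) • a q.1 • q.2)
    rw [hT, ← mul_smul, hH.equi q.1 (orb α hE v n) (orb α hE v (n + 1)) rfl, mul_smul]
    rfl

theorem mautner (hm : ∀ g : G, MeasurePreserving (fun y : N => g • y) ν ν)
    (hL : ∀ g : L, MeasurePreserving (fun x : X => g • x) m m) (hTm : MeasurePreserving T m m)
    (hT : ∀ (g : L) (x : X), T (g • x) = α g • T x) (ha : Continuous a)
    (hE : ∀ v ∈ E, α v ∈ E) (hct : ∀ v ∈ E, Tendsto (fun n => α^[n] v) atTop (𝓝 1))
    (hH : Hol T α a E h) (hS : MeasurableSet S) (hf : skew T a ⁻¹' S = S) (v : E) :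
    thet N h hH.cont v ⁻¹' S =ᵐ[m.prod ν] S := by
  set μ := m.prod ν with hμ
  have hfmp : MeasurePreserving (skew T a : X × N → X × N) μ μ := skew_mp hm hTm ha
  have htmp : ∀ w : E, MeasurePreserving (thet N h hH.cont w) μ μ := fun w =>
    skew_mp hm (hL (w : L))
      (hH.cont.comp (continuous_id.prodMk continuous_const) : Continuous fun x => h x w)
  have hfn : ∀ n : ℕ, (skew T a)^[n] ⁻¹' S = S := by
    intro n
    induction n with
    | zero => rfl
    | succ n ih =>
      rw [Function.iterate_succ, preimage_comp, ih, hf]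
  have hkey : ∀ n : ℕ, μ ((thet N h hH.cont v ⁻¹' S) ∆ S) =
      μ ((thet N h hH.cont (orb α hE v n) ⁻¹' S) ∆ S) := by
    intro n
    have h1 : (skew T a)^[n] ⁻¹' ((thet N h hH.cont (orb α hE v n) ⁻¹' S) ∆ S) =
        (thet N h hH.cont v ⁻¹' S) ∆ S := by
      rw [preimage_symmDiff, hfn n, ← preimage_comp]
      congr 1
      have h2 : (thet N h hH.cont (orb α hE v n)) ∘ (skew T a)^[n] =
          (skew T a)^[n] ∘ (thet N h hH.cont v) := by
        funext p
        exact (thet_comm hT hH hE v n p).symm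
      rw [h2, preimage_comp, hfn n]
    rw [← h1]
    refine (hfmp.iterate n).measure_preimage ?_
    exact (((thet N h hH.cont (orb α hE v n)).continuous.measurable hS).symmDiff
      hS).nullMeasurableSet
  have horb : Tendsto (fun n => orb α hE v n) atTop (𝓝 1) := by
    rw [tendsto_subtype_rng]
    have := hct v v.2
    refine (tendsto_congr fun n => ?_).mpr this
    exact orb_coe hE v n
  have h0 : (thet N h hH.cont 1) = ContinuousMap.id (X × N) := by
    ext p
    · show (1 : L) • p.1 = p.1
      rw [one_smul]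
    · show h p.1 1 • p.2 = p.2
      rw [hH.one, one_smul]
  have hlim : Tendsto (fun n => thet N h hH.cont (orb α hE v n)) atTop
      (𝓝 (ContinuousMap.id (X × N))) := by
    rw [← h0]
    exact ((thet_continuous hH.cont).tendsto 1).comp horb
  have hlim2 := tendsto_measure_symmDiff_preimage_nhds_zero (μ := μ) (ν := μ) (s := S) hlim
    (Eventually.of_forall fun n => htmp _) (MeasurePreserving.id μ) hS.nullMeasurableSet
    (measure_ne_top μ S)
  have hlim3 : Tendsto (fun _ : ℕ => μ ((thet N h hH.cont v ⁻¹' S) ∆ S)) atTop (𝓝 0) := by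
    refine (tendsto_congr fun n => ?_).mpr hlim2
    rw [hkey n]
    rfl
  have hz := tendsto_nhds_unique hlim3 tendsto_const_nhds
  exact measure_symmDiff_eq_zero_iff.mp hz.symm

theorem mautner_rel (hm : ∀ g : G, MeasurePreserving (fun y : N => g • y) ν ν)
    (hL : ∀ g : L, MeasurePreserving (fun x : X => g • x) m m) (hTm : MeasurePreserving T m m)
    (hT : ∀ (g : L) (x : X), T (g • x) = α g • T x) (ha : Continuous a)
    (hE : ∀ v ∈ E, α v ∈ E) (hct : ∀ v ∈ E, Tendsto (fun n => α^[n] v) atTop (𝓝 1))
    (hH : Hol T α a E h) (hS : MeasurableSet S) (hf : skew T a ⁻¹' S = S) (v : E) :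
    ∀ᵐ x : X ∂m, Rel ν S x ((v : L) • x) (h x v) :=
  Measure.ae_ae_of_ae_prod (mautner hm hL hTm hT ha hE hct hH hS hf v)

end mautner

end Pool.Agent.Work.MP_adbfe6_an.Ext
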