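import Pool.Agent.Work.MP_adbfe6_an.Ext.Main
import Pool.Agent.Work.MP_adbfe6_an.Bd.B02

/-!
# Mixing
-/

set_option autoImplicit false
set_option linter.unusedSectionVars false

open MeasureTheory Filter Topology Set

namespace Pool.Agent.Work.MP_adbfe6_an.Ext

section thet

variable {L X G N : Type} [Group L] [TopologicalSpace L]
  [MetricSpace X] [CompactSpace X] [MulAction L X]
  [ContinuousSMul L X] [Group G] [TopologicalSpace G] [MulAction G N]
  [MetricSpace N] [CompactSpace N] [ContinuousSMul G N]

theorem thet_tendsto {T : X → X} {α : L → L} {a : X → G} {E : Subgroup L} {h : X → E → G}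
    (hE : ∀ v ∈ E, α v ∈ E) (hct : ∀ v ∈ E, Tendsto (fun n => α^[n] v) atTop (𝓝 1))
    (hH : Hol T α a E h) (v : E) :
    Tendsto (fun n => thet N h hH.cont (orb α hE v n)) atTop (𝓝 (ContinuousMap.id (X × N))) := by
  have horb : Tendsto (fun n => orb α hE v n) atTop (𝓝 1) := by
    rw [tendsto_subtype_rng]
    have := hct v v.2
    refine (tendsto_congr fun n => ?_).mpr this
    exact orb_coe hE v n
  have h0 : (thet N h hH.cont 1) = ContinuousMap.id (X × N) := by
    ext p
    · show (1 : L) • p.1 = p.1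
      rw [one_smul]
    · show h p.1 1 • p.2 = p.2
      rw [hH.one, one_smul]
  rw [← h0]
  exact ((thet_continuous hH.cont).tendsto 1).comp horb

theorem orb_iterate {α : L → L} {E : Subgroup L} (hE : ∀ v ∈ E, α v ∈ E) (v : E) (n : ℕ) :
    (fun w : E => orb α hE w 1)^[n] v = orb α hE v n := by
  induction n with
  | zero => rfl
  | succ n ih =>
    rw [Function.iterate_succ_apply', ih]
    rfl

/-- the skew product as a homeomorphism -/
def skewH (T : X ≃ₜ X) (a : X → G) (ha : Continuous a) (hb : Continuous (ainv T.symm a)) :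
    (X × N) ≃ₜ (X × N) where
  toFun := skew T a
  invFun := skew T.symm (ainv T.symm a)
  left_inv := by
    intro p
    refine Prod.ext ?_ ?_
    · exact T.symm_apply_apply p.1
    · show (a (T.symm (T p.1)))⁻¹ • a p.1 • p.2 = p.2
      rw [T.symm_apply_apply, inv_smul_smul]
  right_inv := by
    intro p
    refine Prod.ext ?_ ?_
    · exact T.apply_symm_apply p.1
    · show a (T.symm p.1) • (a (T.symm p.1))⁻¹ • p.2 = p.2
      rw [smul_inv_smul]
  continuous_toFun := (T.continuous.comp continuous_fst).prodMk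
    ((ha.comp continuous_fst).smul continuous_snd)
  continuous_invFun := (T.symm.continuous.comp continuous_fst).prodMk
    ((hb.comp continuous_fst).smul continuous_snd)

end thet

variable {L X G N : Type} [Group L] [TopologicalSpace L]
  [IsTopologicalGroup L] [LocallyCompactSpace L] [PolishSpace L]
  [MetricSpace X] [CompactSpace X] [MeasurableSpace X] [BorelSpace X] [MulAction L X]
  [ContinuousSMul L X] [Group G] [TopologicalSpace G] [IsTopologicalGroup G]
  [LocallyCompactSpace G] [MulAction G N]
  [MetricSpace N] [CompactSpace N] [MeasurableSpace N] [BorelSpace N] [ContinuousSMul G N]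

theorem main {m : Measure X} [IsProbabilityMeasure m] {ν : Measure N}
    [IsProbabilityMeasure ν] {T : X ≃ₜ X} {α : L ≃* L} {a : X → G} {Es Eu : Subgroup L}
    {κs κu : ℕ → ℝ} (hB : Base m T α Es Eu) (hF : Fibre (G := G) N ν)
    (hPH : PH N T α a Es Eu κs κu) (hE : EssAcc N T a Es Eu κs κu (m.prod ν)) :
    Ergodic (skew T a : X × N → X × N) (m.prod ν) ∧
      Mixing (skew T a : X × N → X × N) (m.prod ν) := by
  refine ⟨ergodic_skew hB hF hPH hE, ?_⟩
  obtain ⟨hs, hu, hH⟩ := exists_hols hB hF hPH
  have hTm' : MeasurePreserving T.symm m m := hB.T_mp.symm T.toMeasurableEquiv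
  have ms : ∀ v, MeasurePreserving (thet N hs hH.s.cont v) (m.prod ν) (m.prod ν) := fun v =>
    skew_mp hF.act_mp (hB.act_mp v)
      (hH.s.cont.comp (continuous_id.prodMk continuous_const) : Continuous fun x => hs x v)
  have mu : ∀ v, MeasurePreserving (thet N hu hH.u.cont v) (m.prod ν) (m.prod ν) := fun v =>
    skew_mp hF.act_mp (hB.act_mp v)
      (hH.u.cont.comp (continuous_id.prodMk continuous_const) : Continuous fun x => hu x v)
  have is : ∀ v ∈ Es, α v ∈ Es := fun v hv => (hPH.s.inv v).mp hv
  have iu : ∀ v ∈ Eu, α.symm v ∈ Eu := fun v hv => (hPH.u.inv v).mp hv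
  have hfm : MeasurePreserving (skewH (N := N) T a hH.ac hH.bc) (m.prod ν) (m.prod ν) :=
    skew_mp hF.act_mp hB.T_mp hH.ac
  have hsurj : Function.Surjective (fun w : Es => orb α is w 1) := by
    intro w
    refine ⟨⟨α.symm w, (hPH.s.inv _).mpr ?_⟩, ?_⟩
    · rw [α.apply_symm_apply]
      exact w.2
    · apply Subtype.ext
      exact α.apply_symm_apply _
  have c1 : ∀ (v : Es) (z : X × N), skewH (N := N) T a hH.ac hH.bc (thet N hs hH.s.cont v z) =
      thet N hs hH.s.cont (orb α is v 1) (skewH (N := N) T a hH.ac hH.bc z) :=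
    fun v z => thet_comm hB.equi hH.s is v 1 z
  have c2 : ∀ (v : Eu) (z : X × N),
      (skewH (N := N) T a hH.ac hH.bc).symm (thet N hu hH.u.cont v z) =
      thet N hu hH.u.cont (orb α.symm iu v 1) ((skewH (N := N) T a hH.ac hH.bc).symm z) :=
    fun v z => thet_comm (T_symm hB.equi) hH.u iu v 1 z
  have l1 : ∀ v : Es, Tendsto (fun n => thet N hs hH.s.cont ((fun w : Es => orb α is w 1)^[n] v))
      atTop (𝓝 (ContinuousMap.id (X × N))) := by
    intro v
    refine (tendsto_congr fun n => ?_).mpr (thet_tendsto is hPH.s.contr hH.s v)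
    rw [orb_iterate is v n]
  have l2 : ∀ v : Eu, Tendsto
      (fun n => thet N hu hH.u.cont ((fun w : Eu => orb α.symm iu w 1)^[n] v))
      atTop (𝓝 (ContinuousMap.id (X × N))) := by
    intro v
    refine (tendsto_congr fun n => ?_).mpr (thet_tendsto iu hPH.u.contr hH.u v)
    rw [orb_iterate iu v n]
  have hinv : ∀ φ : X × N → ℝ, Measurable φ → Integrable φ (m.prod ν) →
      (∀ v : Es, ∀ᵐ z ∂(m.prod ν), φ (thet N hs hH.s.cont v z) = φ z) →
      (∀ v : Eu, ∀ᵐ z ∂(m.prod ν), φ (thet N hu hH.u.cont v z) = φ z) →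
      ∃ c : ℝ, ∀ᵐ z ∂(m.prod ν), φ z = c := by
    intro φ hφ _ h1 h2
    refine exists_eventuallyEq_const_of_forall_separating MeasurableSet fun U hU => ?_
    have h3 := inv_trivial hB hF hE hH (hφ hU)
      (fun v => by
        rw [eventuallyEq_set]
        filter_upwards [h1 v] with z hz
        rw [mem_preimage, mem_preimage, mem_preimage, hz])
      (fun v => by
        rw [eventuallyEq_set]
        filter_upwards [h2 v] with z hz
        rw [mem_preimage, mem_preimage, mem_preimage, hz])
    rw [eventuallyConst_set] at h3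
    exact h3
  have key := Pool.PSTow.mix_meas (skewH (N := N) T a hH.ac hH.bc) hfm
    (fun v : Es => thet N hs hH.s.cont v) (fun w : Es => orb α is w 1) hsurj
    (fun v : Eu => thet N hu hH.u.cont v) (fun w : Eu => orb α.symm iu w 1) ms mu c1 c2 l1 l2 hinv
  intro S S' hS hS'
  exact key S S' hS hS'

end Pool.Agent.Work.MP_adbfe6_an.Ext
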