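import Pool.Agent.Work.MP_adbfe6_an.Ext.Mautner

/-!
# Moves: translations of the base with a continuous lift that preserves the slices of `S`
-/

set_option autoImplicit false
set_option linter.unusedSectionVars false

open MeasureTheory Filter Topology Set
open scoped symmDiff

namespace Pool.Agent.Work.MP_adbfe6_an.Ext

universe u₁ u₂ u₃ u₄

section moves

variable {L : Type u₁} {X : Type u₂} {G : Type u₃} {N : Type u₄} [Group L] [TopologicalSpace L]
  [MetricSpace X] [MeasurableSpace X] [MulAction L X]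
  [ContinuousSMul L X] [Group G] [TopologicalSpace G] [IsTopologicalGroup G] [MulAction G N]
  [MeasurableSpace N] {m : Measure X} {ν : Measure N} {S : Set (X × N)}

/-- `κ` is a lift of the translation by `g` which preserves the slices of `S` -/
structure Move (m : Measure X) (ν : Measure N) (S : Set (X × N)) (g : L) (κ : X → G) : Prop where
  cont : Continuous κ
  rel : ∀ᵐ x : X ∂m, Rel ν S x (g • x) (κ x)

omit [IsTopologicalGroup G] [ContinuousSMul L X] in
theorem Move.one : Move m ν S (1 : L) (fun _ : X => (1 : G)) := by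
  refine ⟨continuous_const, Eventually.of_forall fun x => ?_⟩
  rw [one_smul]
  exact rel_one x

theorem Move.mul (hm : ∀ g : G, MeasurePreserving (fun y : N => g • y) ν ν)
    (hL : ∀ g : L, MeasurePreserving (fun x : X => g • x) m m) {g g' : L} {κ κ' : X → G}
    (h : Move m ν S g κ) (h' : Move m ν S g' κ') :
    Move m ν S (g' * g) (fun x => κ' (g • x) * κ x) := by
  refine ⟨(h'.cont.comp (continuous_const_smul g)).mul h.cont, ?_⟩
  filter_upwards [h.rel, (hL g).quasiMeasurePreserving.ae h'.rel] with x hx hx'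
  rw [mul_smul]
  exact rel_mul hm hx hx'

theorem Move.inv (hm : ∀ g : G, MeasurePreserving (fun y : N => g • y) ν ν)
    (hL : ∀ g : L, MeasurePreserving (fun x : X => g • x) m m) {g : L} {κ : X → G}
    (h : Move m ν S g κ) :
    Move m ν S g⁻¹ (fun x => (κ (g⁻¹ • x))⁻¹) := by
  refine ⟨(h.cont.comp (continuous_const_smul g⁻¹)).inv, ?_⟩
  filter_upwards [(hL g⁻¹).quasiMeasurePreserving.ae h.rel] with x hx
  rw [smul_inv_smul] at hx
  exact rel_inv hm hx

theorem exists_move (hm : ∀ g : G, MeasurePreserving (fun y : N => g • y) ν ν)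
    (hL : ∀ g : L, MeasurePreserving (fun x : X => g • x) m m) {Es Eu : Subgroup L}
    (hgen : Es ⊔ Eu = ⊤) (hs : ∀ v ∈ Es, ∃ κ : X → G, Move m ν S v κ)
    (hu : ∀ v ∈ Eu, ∃ κ : X → G, Move m ν S v κ) (g : L) : ∃ κ : X → G, Move m ν S g κ := by
  let M : Subgroup L :=
    { carrier := {g | ∃ κ : X → G, Move m ν S g κ}
      mul_mem' := fun {_ _} ⟨_, h1⟩ ⟨_, h2⟩ => ⟨_, h2.mul hm hL h1⟩
      one_mem' := ⟨_, Move.one⟩
      inv_mem' := fun {_} ⟨_, h1⟩ => ⟨_, h1.inv hm hL⟩ }
  have h1 : Es ⊔ Eu ≤ M := sup_le (fun v hv => hs v hv) (fun v hv => hu v hv)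
  rw [hgen] at h1
  exact h1 (Subgroup.mem_top g)

/-- a family of moves depending continuously on a parameter in an open set -/
structure PMove (m : Measure X) (ν : Measure N) (S : Set (X × N)) (U : Set L) (e : L → L)
    (K : X → L → G) : Prop where
  cont_e : ContinuousOn e U
  cont : ContinuousOn (fun q : X × L => K q.1 q.2) (univ ×ˢ U)
  rel : ∀ g ∈ U, ∀ᵐ x : X ∂m, Rel ν S x (e g • x) (K x g)

omit [IsTopologicalGroup G] [ContinuousSMul L X] in
theorem PMove.one (U : Set L) : PMove m ν S U (fun _ => 1) (fun (_ : X) (_ : L) => (1 : G)) := by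
  refine ⟨continuousOn_const, continuousOn_const, fun g _ => Eventually.of_forall fun x => ?_⟩
  rw [one_smul]
  exact rel_one x

theorem PMove.mul (hm : ∀ g : G, MeasurePreserving (fun y : N => g • y) ν ν)
    (hL : ∀ g : L, MeasurePreserving (fun x : X => g • x) m m) [IsTopologicalGroup L]
    {U : Set L} {e e' : L → L} {K K' : X → L → G}
    (h : PMove m ν S U e K) (h' : PMove m ν S U e' K') :
    PMove m ν S U (fun g => e' g * e g) (fun x g => K' (e g • x) g * K x g) := by
  refine ⟨h'.cont_e.mul h.cont_e, ?_, ?_⟩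
  · have h1 : ContinuousOn (fun q : X × L => (e q.2 • q.1, q.2)) (univ ×ˢ U) := by
      refine ContinuousOn.prodMk ?_ continuousOn_snd
      refine ContinuousOn.smul ?_ continuousOn_fst
      exact h.cont_e.comp continuousOn_snd (fun q hq => hq.2)
    exact (h'.cont.comp h1 (fun q hq => ⟨mem_univ _, hq.2⟩)).mul h.cont
  · intro g hg
    filter_upwards [h.rel g hg, (hL (e g)).quasiMeasurePreserving.ae (h'.rel g hg)] with x hx hx'
    rw [mul_smul]
    exact rel_mul hm hx hx'

omit [ContinuousSMul L X] [IsTopologicalGroup G] in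
theorem PMove.of_hol {E : Subgroup L} {h : X → E → G}
    (hc : Continuous (fun p : X × E => h p.1 p.2))
    (hr : ∀ v : E, ∀ᵐ x : X ∂m, Rel ν S x ((v : L) • x) (h x v)) {U : Set L} {s : L → L}
    (hs : ContinuousOn s U) (hsE : ∀ g ∈ U, s g ∈ E) : ∃ K : X → L → G, PMove m ν S U s K := by
  classical
  refine ⟨fun x g => if hg : s g ∈ E then h x ⟨s g, hg⟩ else 1, hs, ?_, ?_⟩
  · rw [continuousOn_iff_continuous_domRestrict]
    have h1 : Continuous (fun q : ((univ : Set X) ×ˢ U : Set (X × L)) => s q.1.2) := by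
      have := hs.comp (continuousOn_snd (s := (univ : Set X) ×ˢ U)) (fun q hq => hq.2)
      exact continuousOn_iff_continuous_domRestrict.mp this
    have h2 : Continuous (fun q : ((univ : Set X) ×ˢ U : Set (X × L)) =>
        h q.1.1 ⟨s q.1.2, hsE _ q.2.2⟩) := by
      refine hc.comp ((continuous_fst.comp continuous_subtype_val).prodMk ?_)
      exact h1.subtype_mk _
    refine h2.congr fun q => ?_
    show _ = (if hg : s q.1.2 ∈ E then h q.1.1 ⟨s q.1.2, hg⟩ else 1)
    rw [dif_pos (hsE _ q.2.2)]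
  · intro g hg
    filter_upwards [hr ⟨s g, hsE g hg⟩] with x hx
    rw [dif_pos (hsE g hg)]
    exact hx

theorem PMove.prod (hm : ∀ g : G, MeasurePreserving (fun y : N => g • y) ν ν)
    (hL : ∀ g : L, MeasurePreserving (fun x : X => g • x) m m) [IsTopologicalGroup L]
    {U : Set L} (k : ℕ) (s : Fin k → L → L)
    (hs : ∀ i, ∃ K : X → L → G, PMove m ν S U (s i) K) :
    ∃ K : X → L → G, PMove m ν S U (fun g => (List.ofFn fun i => s i g).prod) K := by
  induction k with
  | zero =>
    refine ⟨fun _ _ => 1, ?_⟩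
    simp only [List.ofFn_zero, List.prod_nil]
    exact PMove.one U
  | succ k ih =>
    obtain ⟨K, hK⟩ := ih (fun i => s i.succ) (fun i => hs i.succ)
    obtain ⟨K', hK'⟩ := hs 0
    refine ⟨fun x g => K' ((List.ofFn fun i => s i.succ g).prod • x) g * K x g, ?_⟩
    simp only [List.ofFn_succ, List.prod_cons]
    exact hK.mul hm hL hK'

end moves

section base

variable {L : Type u₁} {X : Type u₂} {G : Type u₃} {N : Type u₄} [Group L] [TopologicalSpace L]
  [IsTopologicalGroup L] [LocallyCompactSpace L] [SecondCountableTopology L]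
  [MeasurableSpace L] [BorelSpace L]
  [MetricSpace X] [CompactSpace X] [MeasurableSpace X] [BorelSpace X] [MulAction L X]
  [ContinuousSMul L X] [Group G] [TopologicalSpace G] [IsTopologicalGroup G]
  [MeasurableSpace G] [BorelSpace G] [MulAction G N]
  [MetricSpace N] [CompactSpace N] [MeasurableSpace N] [BorelSpace N] [ContinuousSMul G N]
  {m : Measure X} [IsFiniteMeasure m] {ν : Measure N} [IsFiniteMeasure ν] {S : Set (X × N)}

/-- the orbit maps are quasi measure preserving -/
theorem orbit_qmp [NeZero m] (hL : ∀ g : L, MeasurePreserving (fun x : X => g • x) m m)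
    (htr : ∀ x x' : X, ∃ g : L, g • x = x') (x0 : X) :
    Measure.QuasiMeasurePreserving (fun g : L => g • x0) (Measure.haar : Measure L) m := by
  have hc : ∀ x : X, Continuous (fun g : L => g • x) := fun x => continuous_id.smul continuous_const
  refine ⟨(hc x0).measurable, Measure.AbsolutelyContinuous.mk fun E hE hE0 => ?_⟩
  rw [Measure.map_apply (hc x0).measurable hE]
  have hmeas : MeasurableSet {q : L × X | q.1 • q.2 ∉ E} := by
    have : Continuous (fun q : L × X => q.1 • q.2) := continuous_smul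
    exact (this.measurable hE).compl
  have h1 : ∀ᵐ g : L ∂Measure.haar, ∀ᵐ x : X ∂m, g • x ∉ E := by
    refine Eventually.of_forall fun g => ?_
    have h2 : m ((fun x : X => g • x) ⁻¹' E) = 0 := by
      rw [(hL g).measure_preimage hE.nullMeasurableSet, hE0]
    exact measure_eq_zero_iff_ae_notMem.mp h2
  have h3 := (Measure.ae_ae_comm (p := fun (g : L) (x : X) => g • x ∉ E) hmeas).mp h1
  obtain ⟨x1, hx1⟩ := h3.exists
  obtain ⟨b, hb⟩ := htr x1 x0
  have h4 := (quasiMeasurePreserving_mul_right (Measure.haar : Measure L) b).ae hx1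
  rw [measure_eq_zero_iff_ae_notMem]
  filter_upwards [h4] with g hg
  rw [mem_preimage, ← hb, ← mul_smul]
  exact hg

/-- a chart: a continuous choice of transport elements from `x0` on an open set of `L` -/
structure Chart (ν : Measure N) (S : Set (X × N)) (x0 : X) (V : Set L) (c : L → G) : Prop where
  isOpen : IsOpen V
  cont : ContinuousOn c V
  rel : ∀ᵐ g : L ∂Measure.haar, g ∈ V → Rel ν S x0 (g • x0) (c g)

/-- one good base point -/
theorem exists_chart [NeZero m]
    (hS : MeasurableSet S) {U : Set L} (hU : IsOpen U) {K : X → L → G}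
    (hK : PMove m ν S U (fun g => g) K) : ∃ x0 : X, Chart ν S x0 U (K x0) := by
  classical
  have hUX : MeasurableSet ((univ : Set X) ×ˢ U) := MeasurableSet.univ.prod hU.measurableSet
  have hKt : Measurable (((univ : Set X) ×ˢ U).piecewise (fun q : X × L => K q.1 q.2)
      (fun _ => (1 : G))) :=
    hK.cont.measurable_piecewise continuousOn_const hUX
  set Kt := (((univ : Set X) ×ˢ U).piecewise (fun q : X × L => K q.1 q.2)
      (fun _ => (1 : G))) with hKtd
  have hKt1 : ∀ x g, g ∈ U → Kt (x, g) = K x g := fun x g hg =>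
    Set.piecewise_eq_of_mem _ _ _ (show (x, g) ∈ (univ : Set X) ×ˢ U from ⟨mem_univ _, hg⟩)
  have hW : MeasurableSet {q : (L × X) × N |
      ¬ ((q.1.1 • q.1.2, Kt (q.1.2, q.1.1) • q.2) ∈ S ↔ (q.1.2, q.2) ∈ S)} := by
    have hx : Measurable (fun q : (L × X) × N => q.1.2) := measurable_snd.comp measurable_fst
    have hg : Measurable (fun q : (L × X) × N => q.1.1) := measurable_fst.comp measurable_fst
    have hsm1 : Measurable (fun q : L × X => q.1 • q.2) := continuous_smul.measurable
    have hsm2 : Measurable (fun q : G × N => q.1 • q.2) := continuous_smul.measurable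
    have hf1 : Measurable (fun q : (L × X) × N => (q.1.1 • q.1.2, Kt (q.1.2, q.1.1) • q.2)) :=
      (hsm1.comp measurable_fst).prodMk
        (hsm2.comp ((hKt.comp (hx.prodMk hg)).prodMk measurable_snd))
    have hf2 : Measurable (fun q : (L × X) × N => (q.1.2, q.2)) := hx.prodMk measurable_snd
    have : {q : (L × X) × N |
        ¬ ((q.1.1 • q.1.2, Kt (q.1.2, q.1.1) • q.2) ∈ S ↔ (q.1.2, q.2) ∈ S)} =
        (((fun q : (L × X) × N => (q.1.1 • q.1.2, Kt (q.1.2, q.1.1) • q.2)) ⁻¹' S) ∆
          ((fun q : (L × X) × N => (q.1.2, q.2)) ⁻¹' S)) := by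
      ext q
      simp only [mem_ofPred_eq, mem_symmDiff, mem_preimage]
      tauto
    rw [this]
    exact (hf1 hS).symmDiff (hf2 hS)
  have hmm := measurable_measure_prodMk_left (ν := ν) hW
  have hM : MeasurableSet {q : L × X | q.1 ∈ U → Rel ν S q.2 (q.1 • q.2) (Kt (q.2, q.1))} := by
    have h1 : {q : L × X | q.1 ∈ U → Rel ν S q.2 (q.1 • q.2) (Kt (q.2, q.1))} =
        {q : L × X | q.1 ∈ U}ᶜ ∪ (fun q => ν (Prod.mk q ⁻¹' {q : (L × X) × N |
      ¬ ((q.1.1 • q.1.2, Kt (q.1.2, q.1.1) • q.2) ∈ S ↔ (q.1.2, q.2) ∈ S)})) ⁻¹' {0} := by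
      ext q
      rw [mem_union, mem_compl_iff, mem_preimage, mem_singleton_iff, mem_ofPred_eq, rel_iff_null,
        imp_iff_not_or]
      rfl
    rw [h1]
    exact ((measurable_fst hU.measurableSet).compl).union (hmm (measurableSet_singleton 0))
  have h2 : ∀ᵐ g : L ∂Measure.haar, ∀ᵐ x : X ∂m,
      g ∈ U → Rel ν S x (g • x) (Kt (x, g)) := by
    refine Eventually.of_forall fun g => ?_
    by_cases hg : g ∈ U
    · filter_upwards [hK.rel g hg] with x hx _
      rw [hKt1 x g hg]
      exact hx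
    · exact Eventually.of_forall fun x hx => absurd hx hg
  have h3 := (Measure.ae_ae_comm
    (p := fun (g : L) (x : X) => g ∈ U → Rel ν S x (g • x) (Kt (x, g))) hM).mp h2
  obtain ⟨x0, hx0⟩ := h3.exists
  refine ⟨x0, hU, ?_, ?_⟩
  · exact hK.cont.comp (Continuous.continuousOn (by fun_prop) :
      ContinuousOn (fun g : L => (x0, g)) U) (fun g hg => ⟨mem_univ _, hg⟩)
  · filter_upwards [hx0] with g hg hgU
    have := hg hgU
    rw [hKt1 x0 g hgU] at this
    exact this

/-- translation of a chart by a move -/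
theorem Chart.translate [NeZero m] (hm : ∀ g : G, MeasurePreserving (fun y : N => g • y) ν ν)
    (hL : ∀ g : L, MeasurePreserving (fun x : X => g • x) m m)
    (htr : ∀ x x' : X, ∃ g : L, g • x = x') {x0 : X} {V : Set L} {c : L → G}
    (hc : Chart ν S x0 V c) {b : L} {κ : X → G} (hb : Move m ν S b κ) :
    Chart ν S x0 {g | b⁻¹ * g ∈ V} (fun g => κ ((b⁻¹ * g) • x0) * c (b⁻¹ * g)) := by
  have hcl : Continuous (fun g : L => b⁻¹ * g) := continuous_const.mul continuous_id
  refine ⟨hc.isOpen.preimage hcl, ?_, ?_⟩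
  · refine ContinuousOn.mul ?_ (hc.cont.comp hcl.continuousOn (fun g hg => hg))
    exact (hb.cont.comp (hcl.smul continuous_const)).continuousOn
  · have h1 := (orbit_qmp hL htr x0).ae hb.rel
    have h2 : ∀ᵐ u : L ∂Measure.haar, u ∈ V → Rel ν S x0 ((b * u) • x0) (κ (u • x0) * c u) := by
      filter_upwards [h1, hc.rel] with u hu1 hu2 huV
      rw [mul_smul]
      exact rel_mul hm (hu2 huV) hu1
    have h3 := (measurePreserving_mul_left (Measure.haar : Measure L) b⁻¹).quasiMeasurePreserving.ae h2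
    filter_upwards [h3] with g hg hgV
    have h4 := hg hgV
    rw [mul_inv_cancel_left] at h4
    exact h4

/-- consistency of the charts with the moves -/
theorem Chart.conj [NeZero m] (hm : ∀ g : G, MeasurePreserving (fun y : N => g • y) ν ν)
    (hL : ∀ g : L, MeasurePreserving (fun x : X => g • x) m m)
    (htr : ∀ x x' : X, ∃ g : L, g • x = x') (hS : MeasurableSet S) {x0 : X} {V V' : Set L}
    {c c' : L → G} (hc : Chart ν S x0 V c) (hc' : Chart ν S x0 V' c') {τ l : L} {κ : X → G}
    (hτ : Move m ν S τ κ) (hl : l • x0 = x0) {g : L} (hg : g ∈ V) (hg' : τ * g * l ∈ V') :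
    Rel ν S x0 x0 ((c' (τ * g * l))⁻¹ * κ (g • x0) * c g) := by
  have hφ : Continuous (fun g : L => τ * g * l) :=
    (continuous_const.mul continuous_id).mul continuous_const
  set O : Set L := V ∩ (fun g : L => τ * g * l) ⁻¹' V' with hO
  have hOo : IsOpen O := hc.isOpen.inter (hc'.isOpen.preimage hφ)
  have hD : ContinuousOn (fun g : L => (c' (τ * g * l))⁻¹ * κ (g • x0) * c g) O := by
    refine ContinuousOn.mul (ContinuousOn.mul ?_ ?_) ?_
    · exact (hc'.cont.comp hφ.continuousOn (fun g hg => hg.2)).inv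
    · exact (hτ.cont.comp (continuous_id.smul continuous_const)).continuousOn
    · exact hc.cont.mono (fun g hg => hg.1)
  have hae : ∀ᵐ g : L ∂Measure.haar, g ∈ O →
      Rel ν S x0 x0 ((c' (τ * g * l))⁻¹ * κ (g • x0) * c g) := by
    have h1 := (orbit_qmp hL htr x0).ae hτ.rel
    have h2 := ((quasiMeasurePreserving_mul_right (Measure.haar : Measure L) l).comp
      (measurePreserving_mul_left (Measure.haar : Measure L) τ).quasiMeasurePreserving).ae hc'.rel
    filter_upwards [h1, h2, hc.rel] with g hg1 hg2 hg3 hgO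
    have h4 := hg2 hgO.2
    have h5 : (τ * g * l) • x0 = τ • g • x0 := by
      rw [mul_smul, hl, mul_smul]
    have h6 : Rel ν S x0 (τ • g • x0) (c' (τ * g * l)) := by
      rw [← h5]
      exact h4
    rw [mul_assoc]
    exact rel_mul hm (rel_mul hm (hg3 hgO.1) hg1) (rel_inv hm h6)
  by_contra hcon
  have hcl : IsOpen {g : G | Rel ν S x0 x0 g}ᶜ := (rel_closed hm hS x0 x0).isOpen_compl
  have hopen : IsOpen (O ∩ (fun g : L => (c' (τ * g * l))⁻¹ * κ (g • x0) * c g) ⁻¹'
      {g : G | Rel ν S x0 x0 g}ᶜ) := hD.isOpen_inter_preimage hOo hcl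
  have hnull : (Measure.haar : Measure L) (O ∩ (fun g : L =>
      (c' (τ * g * l))⁻¹ * κ (g • x0) * c g) ⁻¹' {g : G | Rel ν S x0 x0 g}ᶜ) = 0 := by
    rw [measure_eq_zero_iff_ae_notMem]
    filter_upwards [hae] with g hg hgO
    exact hgO.2 (hg hgO.1)
  have hempty := (hopen.measure_eq_zero_iff (Measure.haar : Measure L)).mp hnull
  have hmem : g ∈ (O ∩ (fun g : L => (c' (τ * g * l))⁻¹ * κ (g • x0) * c g) ⁻¹'
      {g : G | Rel ν S x0 x0 g}ᶜ) := ⟨⟨hg, hg'⟩, hcon⟩
  rw [hempty] at hmem
  exact hmem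

end base

end Pool.Agent.Work.MP_adbfe6_an.Ext
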